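import Mathlib

namespace Pool.Agent.Results.MP_88b6d1_co.Exact

open Finset

/-- `A` is the matrix `M_f` of a transformation `f`. -/
def IsTransf {n : ℕ} (A : Matrix (Fin n) (Fin n) Bool) : Prop :=
  ∃ f : Fin n → Fin n, ∀ i j, A i j = true ↔ f i = j

/-- `A` is a transposed transformation matrix. -/
def IsTransfT {n : ℕ} (A : Matrix (Fin n) (Fin n) Bool) : Prop := IsTransf A.transpose

/-- There are `k` matrices, each a transformation or a transposed transformation matrix, whose
Boolean sum dominates the matrix `L_n` of the order `≤`. -/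
def Coverable (n k : ℕ) : Prop :=
  ∃ A : Fin k → Matrix (Fin n) (Fin n) Bool, (∀ t, IsTransf (A t) ∨ IsTransfT (A t)) ∧
    ∀ i j : Fin n, i ≤ j → ∃ t, A t i j = true

def cells (n r c : ℕ) : Finset (ℕ × ℕ) := (range r ×ˢ range c).filter fun p => p.1 + p.2 < n

lemma cells_succ (n r c : ℕ) : (cells n (r + 1) c).card = (cells n r c).card + min c (n - r) := by
  have : cells n (r + 1) c = cells n r c ∪ (range (min c (n - r))).image fun s => (r, s) := by
    ext ⟨x, y⟩
    simp only [cells, mem_filter, mem_product, mem_range, mem_union, mem_image, Prod.mk.injEq]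
    constructor
    · rintro ⟨⟨h1, h2⟩, h3⟩
      by_cases h : x < r
      · exact Or.inl ⟨⟨h, h2⟩, h3⟩
      · exact Or.inr ⟨y, by omega, by omega, rfl⟩
    · rintro (⟨⟨h1, h2⟩, h3⟩ | ⟨s, h1, rfl, rfl⟩) <;> omega
  rw [this, card_union_of_disjoint, card_image_of_injective _ (fun a b h => by simpa using h),
    card_range]
  rw [disjoint_left]
  rintro ⟨x, y⟩ h1 h2
  simp only [cells, mem_filter, mem_product, mem_range, mem_image, Prod.mk.injEq] at h1 h2
  omega

lemma cells_card (n c : ℕ) (hc : c ≤ n) (r : ℕ) (hr : r ≤ n) :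
    (r + c ≤ n → (cells n r c).card = r * c) ∧
    (n ≤ r + c → 2 * ((cells n r c).card : ℤ) =
      n * (n + 1) - (n - r) * (n - r + 1) - (n - c) * (n - c + 1)) := by
  have h1 : ∀ r, r + c ≤ n → (cells n r c).card = r * c := by
    intro r
    induction r with
    | zero => simp [cells]
    | succ r ih => intro h; rw [cells_succ, ih (by omega), min_eq_left (by omega)]; ring
  refine ⟨h1 r, fun h => ?_⟩
  obtain ⟨d, rfl⟩ : ∃ d, n = d + c := ⟨n - c, by omega⟩
  have hd : d ≤ r := by omega
  induction r, hd using Nat.le_induction with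
  | base => rw [h1 d le_rfl]; push_cast; ring
  | succ r hdr ih =>
    rw [cells_succ, min_eq_right (by omega)]
    have := ih (by omega) (by omega)
    push_cast [Nat.cast_sub (show r ≤ d + c by omega)] at this ⊢
    linarith

lemma tri (a u : ℤ) : 2 * a * u - u * (u + 1) ≤ a * (a - 1) := by
  have : 0 ≤ (a - u) * (a - u - 1) := by
    rcases le_or_gt (a - u) 0 with h | h
    · exact mul_nonneg_of_nonpos_of_nonpos h (by omega)
    · exact mul_nonneg (by omega) (by omega)
  nlinarith

lemma cells_le (n a b : ℕ)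
    (h : ((n : ℤ) - a) * (n - a + 1) + (n - b) * (n - b + 1) ≤ n * (n + 1))
    (r c : ℕ) (hr : r ≤ n) (hc : c ≤ n) : (cells n r c).card ≤ a * r + b * c := by
  have key : ∀ r, r ≤ n → n ≤ r + c → (cells n r c).card ≤ a * r + b * c := fun r hr hrc => by
    have h1 := (cells_card n c hc r hr).2 hrc
    have h2 := tri a (n - r)
    have h3 := tri b (n - c)
    zify
    nlinarith
  by_cases hrc : n ≤ r + c
  · exact key r hr hrc
  · rw [(cells_card n c hc r hr).1 (by omega)]
    by_cases hca : c ≤ a
    · nlinarith [Nat.mul_le_mul_left r hca]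
    · have h1 := key (n - c) (by omega) (by omega)
      rw [(cells_card n c hc (n - c) (by omega)).1 (by omega)] at h1
      obtain ⟨e, he⟩ : ∃ e, n - c = r + e := ⟨n - c - r, by omega⟩
      rw [he] at h1
      nlinarith [Nat.mul_le_mul_left e (show a ≤ c by omega)]

lemma rank_inj {n : ℕ} (R : Finset (Fin n)) (i j : Fin n) (hi : i ∈ R) (hj : j ∈ R)
    (h : (R.filter (· < i)).card = (R.filter (· < j)).card) : i = j := by
  have key : ∀ i j : Fin n, i ∈ R → i < j → (R.filter (· < i)).card < (R.filter (· < j)).card :=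
    fun i j hi hij => card_lt_card ⟨fun x hx => by
      simp only [mem_filter] at hx ⊢; exact ⟨hx.1, hx.2.trans hij⟩,
      fun hs => by simpa using hs (mem_filter.2 ⟨hi, hij⟩)⟩
  rcases lt_trichotomy i j with h1 | h1 | h1
  · exact absurd h (key i j hi h1).ne
  · exact h1
  · exact absurd h (key j i hj h1).ne'

lemma rank_lt {n : ℕ} (R : Finset (Fin n)) (i : Fin n) (hi : i ∈ R) :
    (R.filter (· < i)).card < R.card :=
  card_lt_card ⟨filter_subset _ _, fun hs => by simpa using hs hi⟩

lemma rank_le {n : ℕ} (R : Finset (Fin n)) (i : Fin n) : (R.filter (· < i)).card ≤ i := by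
  rw [← Fin.card_Iio i]
  exact card_le_card fun x hx => mem_Iio.2 (mem_filter.1 hx).2

lemma upper (n a b : ℕ)
    (h : ((n : ℤ) - a) * (n - a + 1) + (n - b) * (n - b + 1) ≤ n * (n + 1)) :
    Coverable n (a + b) := by
  classical
  let ι := {p : Fin n × Fin n // p.1 ≤ p.2}
  let t : ι → Finset ((Fin n × Fin a) ⊕ (Fin n × Fin b)) := fun p =>
    ({p.1.1} ×ˢ univ).disjSum ({p.1.2} ×ˢ univ)
  obtain ⟨φ, hφ, hm⟩ := (all_card_le_biUnion_card_iff_exists_injective t).1 (fun s => by
    set R := s.image fun p => p.1.1 with hR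
    set C := s.image fun p => p.1.2.rev with hC
    have h1 : s.card ≤ (cells n R.card C.card).card := by
      refine card_le_card_of_injOn
        (fun p => ((R.filter (· < p.1.1)).card, (C.filter (· < p.1.2.rev)).card)) ?_ ?_
      · intro p hp
        have a1 := rank_lt R p.1.1 (mem_image_of_mem _ hp)
        have a2 := rank_lt C p.1.2.rev (mem_image_of_mem _ hp)
        have a3 := rank_le R p.1.1
        have a4 := rank_le C p.1.2.rev
        have a5 : p.1.1.val ≤ p.1.2.val := p.2
        have a6 := p.1.2.2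
        rw [Fin.val_rev] at a4
        simp only [cells, coe_filter, mem_product, mem_range, Set.mem_ofPred_eq]
        omega
      · intro p hp q hq e
        simp only [Prod.mk.injEq] at e
        have e1 := rank_inj R _ _ (mem_image_of_mem _ hp) (mem_image_of_mem _ hq) e.1
        have e2 := rank_inj C _ _ (mem_image_of_mem _ hp) (mem_image_of_mem _ hq) e.2
        exact Subtype.ext (Prod.ext e1 (Fin.rev_injective e2))
    have h2 := cells_le n a b h R.card C.card (by simpa using card_le_univ R)
      (by simpa using card_le_univ C)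
    have h3 : (R ×ˢ (univ : Finset (Fin a))).disjSum ((C.image Fin.rev) ×ˢ (univ : Finset (Fin b)))
        ⊆ s.biUnion t := by
      rintro (⟨x, y⟩ | ⟨x, y⟩) hx
      · simp only [inl_mem_disjSum, mem_product, hR, mem_image] at hx
        obtain ⟨⟨p, hp, rfl⟩, -⟩ := hx
        exact mem_biUnion.2 ⟨p, hp, by simp [t]⟩
      · simp only [inr_mem_disjSum, mem_product, hC, mem_image] at hx
        obtain ⟨⟨_, ⟨p, hp, rfl⟩, rfl⟩, -⟩ := hx
        exact mem_biUnion.2 ⟨p, hp, by simp [t]⟩
    have h4 := card_le_card h3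
    rw [card_disjSum, card_product, card_product, card_image_of_injective _ Fin.rev_injective] at h4
    simp only [card_univ, Fintype.card_fin] at h4
    nlinarith)
  let f : Fin a → Fin n → Fin n := fun s i =>
    if h : ∃ p : ι, φ p = Sum.inl (i, s) then h.choose.1.2 else i
  let g : Fin b → Fin n → Fin n := fun s j =>
    if h : ∃ p : ι, φ p = Sum.inr (j, s) then h.choose.1.1 else j
  refine ⟨Fin.append (fun s => Matrix.of fun i j => decide (f s i = j))
    (fun s => Matrix.of fun i j => decide (g s j = i)), fun s => ?_, fun i j hij => ?_⟩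
  · refine Fin.addCases (fun s => Or.inl ⟨f s, fun i j => ?_⟩) (fun s => Or.inr ⟨g s, fun i j => ?_⟩) s
    · simp
    · simp
  · have := hm ⟨(i, j), hij⟩
    rcases e : φ ⟨(i, j), hij⟩ with ⟨x, s⟩ | ⟨x, s⟩
    · rw [e] at this
      have hx : x = i := Eq.symm (by simpa [t] using this)
      subst hx
      have hex : ∃ p : ι, φ p = Sum.inl (x, s) := ⟨_, e⟩
      have := hφ (hex.choose_spec.trans e.symm)
      refine ⟨Fin.castAdd b s, ?_⟩
      simp [f, dif_pos hex, this]
    · rw [e] at this
      have hx : x = j := Eq.symm (by simpa [t] using this)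
      subst hx
      have hex : ∃ p : ι, φ p = Sum.inr (x, s) := ⟨_, e⟩
      have := hφ (hex.choose_spec.trans e.symm)
      refine ⟨Fin.natAdd a s, ?_⟩
      simp [g, dif_pos hex, this]

lemma lower (n k : ℕ) (h : Coverable n k) : ∃ a b : ℕ, a + b = k ∧ (a + b ≤ n →
    ((n : ℤ) - a) * (n - a + 1) + (n - b) * (n - b + 1) ≤ n * (n + 1)) := by
  classical
  obtain ⟨A, hA, hc⟩ := h
  set T := univ.filter fun t => IsTransf (A t) with hT
  set U := univ.filter fun t => ¬ IsTransf (A t) with hU
  refine ⟨T.card, U.card, by rw [hT, hU, card_filter_add_card_filter_not]; simp, fun hab => ?_⟩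
  have h1 := (cells_card n (n - U.card) (by omega) (n - T.card) (by omega)).2 (by omega)
  have hF : ∀ t, ∃ F : ℕ → ℕ, ∀ i j : Fin n, A t i j = true →
      (t ∈ T → F i = j.rev) ∧ (t ∈ U → F j.rev = i) := fun t => by
    by_cases ht : IsTransf (A t)
    · obtain ⟨f, hf⟩ := id ht
      refine ⟨fun i => if h : i < n then (f ⟨i, h⟩).rev else 0, fun i j hij => ⟨fun _ => ?_, fun hu => ?_⟩⟩
      · simp [(hf i j).1 hij]
      · exact absurd ht (mem_filter.1 hu).2
    · obtain ⟨f, hf⟩ := (hA t).resolve_left ht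
      refine ⟨fun j => if h : j < n then f (Fin.rev ⟨j, h⟩) else 0, fun i j hij => ⟨fun hu => ?_, fun _ => ?_⟩⟩
      · exact absurd (mem_filter.1 hu).2 ht
      · have := (hf j i).1 hij
        simp only [j.rev.2, dif_pos, Fin.eta, Fin.rev_rev, this]
  choose F hF using hF
  have h2 : cells n (n - T.card) (n - U.card) ⊆
      ((T ×ˢ range (n - T.card)).image fun p => (p.2, F p.1 p.2)) ∪
      ((U ×ˢ range (n - U.card)).image fun p => (F p.1 p.2, p.2)) := by
    rintro ⟨x, y⟩ hxy
    simp only [cells, mem_filter, mem_product, mem_range] at hxy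
    obtain ⟨t, ht⟩ := hc ⟨x, by omega⟩ (Fin.rev ⟨y, by omega⟩) (by
      rw [Fin.le_def, Fin.val_rev]; simp only; omega)
    have := hF t _ _ ht
    simp only [Fin.rev_rev] at this
    by_cases htT : IsTransf (A t)
    · have h' : t ∈ T := mem_filter.2 ⟨mem_univ _, htT⟩
      exact mem_union_left _ (mem_image.2 ⟨(t, x), mem_product.2 ⟨h', mem_range.2 hxy.1.1⟩,
        by simp [this.1 h']⟩)
    · have h' : t ∈ U := mem_filter.2 ⟨mem_univ _, htT⟩
      exact mem_union_right _ (mem_image.2 ⟨(t, y), mem_product.2 ⟨h', mem_range.2 hxy.1.2⟩,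
        by simp [this.2 h']⟩)
  have h3 := (card_le_card h2).trans ((card_union_le _ _).trans
    (add_le_add card_image_le card_image_le))
  simp only [card_product, card_range] at h3
  generalize T.card = a at *
  generalize U.card = b at *
  zify [show a ≤ n by omega, show b ≤ n by omega] at h1 h3
  nlinarith

/-- `m(n) = 2 n + 1 - ⌊√(2 n² + 2 n + 1)⌋`. -/
theorem result (n : ℕ) :
    IsLeast {k | Coverable n k} (2 * n + 1 - Nat.sqrt (2 * n ^ 2 + 2 * n + 1)) := by
  set q := Nat.sqrt (2 * n ^ 2 + 2 * n + 1) with hq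
  have q1 : q * q ≤ 2 * n ^ 2 + 2 * n + 1 := Nat.sqrt_le _
  have q2 : n + 1 ≤ q := Nat.le_sqrt.2 (by nlinarith)
  have q3 : q ≤ 2 * n + 1 := by nlinarith
  constructor
  · have e : 2 * n + 1 - q = (n - (q - 1) / 2) + (n - q / 2) := by omega
    rw [e]
    refine upper n _ _ ?_
    rw [Nat.cast_sub (by omega), Nat.cast_sub (by omega)]
    rcases Nat.even_or_odd' q with ⟨x, hx | hx⟩
    · obtain ⟨y, rfl⟩ : ∃ y, x = y + 1 := ⟨x - 1, by omega⟩
      rw [show (q - 1) / 2 = y by omega, show q / 2 = y + 1 by omega]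
      rw [hx] at q1
      have : 2 * (y + 1) ^ 2 ≤ n ^ 2 + n := by
        have : 2 * (2 * (y + 1) ^ 2) ≤ 2 * (n ^ 2 + n) + 1 := by nlinarith
        omega
      zify at this
      push_cast
      nlinarith
    · rw [show (q - 1) / 2 = x by omega, show q / 2 = x by omega]
      rw [hx] at q1
      zify at q1
      nlinarith
  · intro k hk
    obtain ⟨a, b, rfl, h⟩ := lower n k hk
    by_cases hab : a + b ≤ n
    · have h1 := h hab
      have : 2 * n + 1 - (a + b) ≤ q := by
        refine Nat.le_sqrt.2 ?_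
        zify [show a + b ≤ 2 * n + 1 by omega]
        nlinarith [sq_nonneg ((a : ℤ) - b)]
      omega
    · omega

end Pool.Agent.Results.MP_88b6d1_co.Exact
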